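import Mathlib
import Pool.Agent.TH766.KT.Forced

set_option autoImplicit false

open Cardinal Pool.Agent.Helper669.Forcing Pool.Agent.Helper669.K Pool.Agent.Helper980.G
  Pool.Agent.TH766.KT

namespace Pool.Agent.Results.MP_dc3585_lc.StrongFormConsistent

/-- A positive answer to the strong form (Q2) is consistent, and it does not bound
`2 ^ (2 ^ ℵ₀)`: for every set `K` with `|K| ^ (2 ^ ℵ₀) = |K| ≥ 2` there is a notion of forcing
whose extension has the same `ω₁`, satisfies the continuum hypothesis and `2 ^ ℵ₁ = |K|`, so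
`|K| = 2 ^ (2 ^ ℵ₀)`, and has a partition of the triples of `K` into two classes such that every
uncountable subset of `K` has a countably infinite subset homogeneous for the first class and
another one homogeneous for the second class. All cardinals are preserved if the continuum
hypothesis holds in the ground model, and GCH is preserved if `|K| = ℵ₂`. -/
theorem result (K : Type) (hK0 : 2 ≤ #K) (hK : #K ^ (𝔠 : Cardinal.{0}) = #K) :
    ∃ (P : Type) (_ : Preorder P), Nonempty P ∧ ∀ p : P,
      p ∈ OmegaOnePreserved P ∧ p ∈ PowerEq P ℕ W1 ∧ p ∈ PowerEq P W1 K ∧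
      p ∈ StrongPartition P K ∧
      ((𝔠 : Cardinal.{0}) = ℵ_ 1 → p ∈ CardinalsPreserved.{0, 0} P) ∧
      ((∀ ν : Cardinal.{0}, ℵ₀ ≤ ν → 2 ^ ν = Order.succ ν) → #K = ℵ_ 2 → p ∈ ForcesGCH P) := by
  obtain ⟨hne, h⟩ := forced hK0 hK
  exact ⟨Cond K, inferInstance, hne, fun p => ⟨(h p).1, (h p).2.1, (h p).2.2.1, (h p).2.2.2.1,
    (h p).2.2.2.2, fun hG hK2 => forced_GCH hG hK2 p⟩⟩

end Pool.Agent.Results.MP_dc3585_lc.StrongFormConsistent
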